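import Pool.Agent.H98.EU.SDefs

/-!
# SysA: completions compose, one new place, systems for terms (`chain`, `gate`, `tsys` of Sys.lean)
-/

set_option autoImplicit false

namespace Pool.Agent.H98.EU

/-- completions compose -/
theorem chain {N N1 N2 : ℕ} {S1 S2 : List Ins} {pre pre2 : (M : Type) → [CommSemiring M] → [LinearOrder M] → (ℕ → M) → Prop}
    (hN : 3 ≤ N) (h01 : N ≤ N1) (h12 : N1 ≤ N2) (hS1 : Below N1 S1) (h1 : Cpl N N1 S1 pre) (h2 : Cpl N1 N2 S2 pre2)
    (hpre : ∀ (M : Type) [CommSemiring M] [LinearOrder M], PAminus M → ∀ w w' : ℕ → M, w 1 = 1 → w 2 = 0 →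
      (∀ i < N, w' i = w i) → pre M w → Sat S1 w' → pre2 M w') : Cpl N N2 (S1 ++ S2) pre := by
  obtain ⟨E1, h1⟩ := h1
  obtain ⟨E2, h2⟩ := h2
  refine ⟨(E1 + 2) * E2, ?_⟩
  intro M _ _ P w W hw1 hw2 hW hp
  obtain ⟨w1, ha, hb, hc⟩ := h1 M P w W hw1 hw2 hW hp
  obtain ⟨w2, hd, he, hf⟩ := h2 M P w1 ((W + 2) ^ E1) (by rw [ha 1 (by omega), hw1]) (by rw [ha 2 (by omega), hw2]) hb
    (hpre M P w w1 hw1 hw2 ha hp hc)
  refine ⟨w2, fun i hi => ?_, fun i hi => (he i hi).trans (P.comp_bd W E1 E2), ?_⟩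
  · rw [hd i (by omega), ha i hi]
  · rw [Sat_append]
    exact ⟨Sat_congr hS1 (fun i hi => (hd i hi).symm) hc, hf⟩

/-- a new place with a determined value -/
theorem gate (N o j k l : ℕ) (ho : o ≤ 2) (hN : 3 ≤ N) (hj : j < N) (hk : k < N) (hl : l < N) :
    Cpl N (N + 1) [⟨o, j, k, l, N⟩] (fun _ _ _ _ => True) := by
  refine ⟨4, ?_⟩
  intro M _ _ P w W hw1 hw2 hW _
  have hb : ∀ i < N, w i ≤ (W + 2) ^ 1 := fun i hi => P.le_pow_one (hW i hi)
  have key : ∃ u : M, u ≤ (W + 2) ^ 4 ∧ Rl (o : M) (w j) (w k) (w l) u := by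
    interval_cases o
    · refine ⟨w j * w k + w l, ?_, (Rl0 P).2 rfl⟩
      exact P.add_bd (P.mul_bd (hb j hj) (hb k hk)) (hb l hl)
    · by_cases h : w j = w k
      · exact ⟨1, P.one_le_pow W 4, (Rl1 P).2 (Or.inl ⟨rfl, h⟩)⟩
      · exact ⟨0, P.nonneg _, (Rl1 P).2 (Or.inr ⟨rfl, h⟩)⟩
    · by_cases h : w j < w k
      · exact ⟨1, P.one_le_pow W 4, (Rl2 P).2 (Or.inl ⟨rfl, h⟩)⟩
      · exact ⟨0, P.nonneg _, (Rl2 P).2 (Or.inr ⟨rfl, h⟩)⟩
  obtain ⟨u, hu1, hu2⟩ := key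
  have hup : ∀ i < N, Function.update w N u i = w i := fun i hi => Function.update_of_ne (by omega) _ _
  refine ⟨Function.update w N u, hup, ?_, ?_⟩
  · intro i hi
    rcases Nat.lt_succ_iff_lt_or_eq.1 hi with h | h
    · rw [hup i h]
      exact (hb i h).trans (P.pow_mono W (by omega))
    · rw [h, Function.update_self]
      exact hu1
  · intro c hc
    rw [List.mem_singleton] at hc
    subst hc
    show Rl (o : M) (Function.update w N u j) (Function.update w N u k) (Function.update w N u l) (Function.update w N u N)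
    rw [hup j hj, hup k hk, hup l hl, Function.update_self]
    exact hu2

/-- no instruction -/
theorem cpl_nil (N : ℕ) (pre : (M : Type) → [CommSemiring M] → [LinearOrder M] → (ℕ → M) → Prop) : Cpl N N [] pre := by
  refine ⟨1, ?_⟩
  intro M _ _ P w W _ _ hW _
  exact ⟨w, fun _ _ => rfl, fun i hi => P.le_pow_one (hW i hi), fun c hc => absurd hc (List.not_mem_nil)⟩

theorem below_nil (N : ℕ) : Below N [] := fun c hc => absurd hc (List.not_mem_nil)

theorem tsys (t : Tm) : ∀ (N : ℕ) (ρ : ℕ → ℕ), 3 ≤ N → (∀ i ∈ t.vars, ρ i < N) → ∃ (S : List Ins) (N' r : ℕ),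
    N ≤ N' ∧ r < N' ∧ Below N' S ∧
    (∀ (M : Type) [CommSemiring M] [LinearOrder M], PAminus M → ∀ w : ℕ → M, w 1 = 1 → w 2 = 0 → Sat S w →
      w r = t.eval (fun i => w (ρ i))) ∧
    Cpl N N' S (fun _ _ _ _ => True) := by
  induction t with
  | var i =>
    intro N ρ hN hv
    refine ⟨[], N, ρ i, le_rfl, hv i (by simp [Tm.vars]), below_nil N, ?_, cpl_nil N _⟩
    intro M _ _ _ w _ _ _
    rfl
  | zero =>
    intro N ρ hN hv
    refine ⟨[], N, 2, le_rfl, by omega, below_nil N, ?_, cpl_nil N _⟩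
    intro M _ _ _ w _ h2 _
    exact h2
  | one =>
    intro N ρ hN hv
    refine ⟨[], N, 1, le_rfl, by omega, below_nil N, ?_, cpl_nil N _⟩
    intro M _ _ _ w h1 _ _
    exact h1
  | add s t ihs iht =>
    intro N ρ hN hv
    obtain ⟨S1, N1, r1, h1, h2, h3, h4, h5⟩ := ihs N ρ hN (fun i hi => hv i (Finset.mem_union_left _ hi))
    obtain ⟨S2, N2, r2, g1, g2, g3, g4, g5⟩ := iht N1 ρ (by omega)
      (fun i hi => (hv i (Finset.mem_union_right _ hi)).trans_le h1)
    have hB : Below N2 (S1 ++ S2) := Below_append.2 ⟨Below_mono h3 g1, g3⟩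
    refine ⟨(S1 ++ S2) ++ [⟨0, 1, r1, r2, N2⟩], N2 + 1, N2, by omega, by omega, ?_, ?_, ?_⟩
    · refine Below_append.2 ⟨Below_mono hB (by omega), ?_⟩
      intro c hc
      rw [List.mem_singleton] at hc
      subst hc
      exact ⟨by show (1 : ℕ) < N2 + 1; omega, by show r1 < N2 + 1; omega, by show r2 < N2 + 1; omega,
        by show N2 < N2 + 1; omega⟩
    · intro M _ _ P w hw1 hw2 hS
      obtain ⟨hS12, hS3⟩ := Sat_append.1 hS
      obtain ⟨hSa, hSb⟩ := Sat_append.1 hS12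
      have e1 := h4 M P w hw1 hw2 hSa
      have e2 := g4 M P w hw1 hw2 hSb
      have e3 := (Rl0 P).1 (hS3 ⟨0, 1, r1, r2, N2⟩ (List.mem_singleton.2 rfl))
      change w 1 * w r1 + w r2 = w N2 at e3
      show w N2 = s.eval (fun i => w (ρ i)) + t.eval (fun i => w (ρ i))
      rw [← e3, hw1, one_mul, e1, e2]
    · refine chain hN (h1.trans g1) (by omega) hB (chain hN h1 g1 h3 h5 g5 ?_)
        (gate N2 0 1 r1 r2 (by omega) (by omega) (by omega) (by omega) g2) ?_
      · intros; trivial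
      · intros; trivial
  | mul s t ihs iht =>
    intro N ρ hN hv
    obtain ⟨S1, N1, r1, h1, h2, h3, h4, h5⟩ := ihs N ρ hN (fun i hi => hv i (Finset.mem_union_left _ hi))
    obtain ⟨S2, N2, r2, g1, g2, g3, g4, g5⟩ := iht N1 ρ (by omega)
      (fun i hi => (hv i (Finset.mem_union_right _ hi)).trans_le h1)
    have hB : Below N2 (S1 ++ S2) := Below_append.2 ⟨Below_mono h3 g1, g3⟩
    refine ⟨(S1 ++ S2) ++ [⟨0, r1, r2, 2, N2⟩], N2 + 1, N2, by omega, by omega, ?_, ?_, ?_⟩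
    · refine Below_append.2 ⟨Below_mono hB (by omega), ?_⟩
      intro c hc
      rw [List.mem_singleton] at hc
      subst hc
      exact ⟨by show r1 < N2 + 1; omega, by show r2 < N2 + 1; omega, by show (2 : ℕ) < N2 + 1; omega,
        by show N2 < N2 + 1; omega⟩
    · intro M _ _ P w hw1 hw2 hS
      obtain ⟨hS12, hS3⟩ := Sat_append.1 hS
      obtain ⟨hSa, hSb⟩ := Sat_append.1 hS12
      have e1 := h4 M P w hw1 hw2 hSa
      have e2 := g4 M P w hw1 hw2 hSb
      have e3 := (Rl0 P).1 (hS3 ⟨0, r1, r2, 2, N2⟩ (List.mem_singleton.2 rfl))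
      change w r1 * w r2 + w 2 = w N2 at e3
      show w N2 = s.eval (fun i => w (ρ i)) * t.eval (fun i => w (ρ i))
      rw [← e3, hw2, add_zero, e1, e2]
    · refine chain hN (h1.trans g1) (by omega) hB (chain hN h1 g1 h3 h5 g5 ?_)
        (gate N2 0 r1 r2 2 (by omega) (by omega) (by omega) g2 (by omega)) ?_
      · intros; trivial
      · intros; trivial

end Pool.Agent.H98.EU
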